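import Pool.Agent.helper64.PB.SpecB

/-! # Row pb:ALC (MP_069684_lc): conjunction from negation, a constant and a non-affine gate -/

set_option autoImplicit false

namespace Pool.Agent.PB

theorem ALC_gate (G : Set Gate) (g : Gate) (hg : g ∈ G) : InCl G g.2 :=
  ⟨1, [g.2], Prog.step [] g (fun i => fun x => x i) Prog.nil hg (fun i => Or.inr ⟨i, rfl⟩), le_rfl,
    Or.inl (List.mem_singleton.2 rfl)⟩

theorem ALC_two (G : Set Gate) (hvar : ∀ j, InCl G (fun x : Fin 2 → Bool => x j))
    (hnot : ∀ u : BF 2, InCl G u → InCl G (fun x => !(u x))) (H : Bool → Bool → Bool)
    (hH : ∀ u v : BF 2, InCl G u → InCl G v → InCl G (fun x => H (u x) (v x)))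
    (hodd : xor (H false false) (xor (H true false) (xor (H false true) (H true true))) = true) :
    InCl G fAnd := by
  have hx : ∀ (p : Bool) (u : BF 2), InCl G u → InCl G (fun x => xor p (u x)) := by
    intro p u hu
    cases p
    · simpa using hu
    · simpa using hnot u hu
  have key : ∀ p q r : Bool, InCl G (fun x : Fin 2 → Bool => xor r (H (xor p (x 0)) (xor q (x 1)))) := by
    intro p q r
    exact hx r _ (hH _ _ (hx p _ (hvar 0)) (hx q _ (hvar 1)))
  have h := key (xor (H false false) (H false true)) (xor (H false false) (H true false))
    (xor (H false false) ((xor (H false false) (H true false)) && (xor (H false false) (H false true))))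
  have e : (fun x : Fin 2 → Bool => xor (xor (H false false)
      ((xor (H false false) (H true false)) && (xor (H false false) (H false true))))
      (H (xor (xor (H false false) (H false true)) (x 0))
        (xor (xor (H false false) (H true false)) (x 1)))) = fAnd := by
    funext x
    unfold fAnd
    generalize x 0 = a
    generalize x 1 = b
    rcases ha : H false false <;> rcases hb : H true false <;> rcases hc : H false true <;>
      rcases hd : H true true <;> rw [ha, hb, hc, hd] at hodd <;> cases a <;> cases b <;> simp_all
  rw [e] at h
  exact h

theorem ALC_xor {n : ℕ} (f g : BF n) (hf : Affine f) (hg : Affine g) :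
    Affine (fun x => xor (f x) (g x)) := by
  intro x y z
  simp only []
  rw [hf x y z, hg x y z]
  generalize f x = a
  generalize f y = b
  generalize f z = c
  generalize g x = a'
  generalize g y = b'
  generalize g z = c'
  revert a b c a' b' c'
  decide

theorem ALC_lin {n : ℕ} (i : Fin n) (d : Bool) : Affine (fun x : Fin n → Bool => x i && d) := by
  intro x y z
  simp only []
  generalize x i = a
  generalize y i = b
  generalize z i = c
  revert a b c d
  decide

theorem ALC_const {n : ℕ} (d : Bool) : Affine (fun _ : Fin n → Bool => d) := by
  intro x y z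
  simp only []
  cases d <;> rfl

theorem ALC (hNLM : NLM_stmt) (hCLP : CLP_stmt) : ALC_stmt := by
  rintro G hN h0 ⟨g, hg, hga⟩
  obtain ⟨σ, hσ⟩ := hNLM g.1 g.2 hga
  set F : BF 3 := fun y => g.2 fun i => y (σ i) with hFdef
  have hF : InCl G F := hCLP.2 G g.1 3 g.2 (fun i y => y (σ i)) (ALC_gate G g hg)
    (fun i => hCLP.1 G 3 (σ i))
  have hnot : ∀ u : BF 2, InCl G u → InCl G (fun x => !(u x)) := fun u hu =>
    hCLP.2 G 1 2 fNot (fun _ => u) hN (fun _ => hu)
  have hfalse : InCl G (fun _ : Fin 2 → Bool => false) :=
    hCLP.2 G 1 2 (fC false 1) (fun _ x => x 0) h0 (fun _ => hCLP.1 G 2 0)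
  have hconst : ∀ c : Bool, InCl G (fun _ : Fin 2 → Bool => c) := by
    intro c
    cases c
    · exact hfalse
    · exact hnot _ hfalse
  have hcomp : ∀ u v w : BF 2, InCl G u → InCl G v → InCl G w →
      InCl G (fun x => F ![u x, v x, w x]) := by
    intro u v w hu hv hw
    have h := hCLP.2 G 3 2 F ![u, v, w] hF (by
      intro i
      fin_cases i
      · exact hu
      · exact hv
      · exact hw)
    have e : (fun x : Fin 2 → Bool => F fun i => (![u, v, w] : Fin 3 → BF 2) i x) =
        fun x => F ![u x, v x, w x] := by
      funext x
      have e' : (fun i => (![u, v, w] : Fin 3 → BF 2) i x) = ![u x, v x, w x] := by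
        funext i
        fin_cases i <;> rfl
      rw [e']
    rw [e] at h
    exact h
  by_contra hcon
  have h1 : ∀ c : Bool, xor (F ![false, false, c]) (xor (F ![true, false, c])
      (xor (F ![false, true, c]) (F ![true, true, c]))) = false := by
    intro c
    by_contra h
    exact hcon (ALC_two G (hCLP.1 G 2) hnot (fun x y => F ![x, y, c])
      (fun u v hu hv => hcomp u v _ hu hv (hconst c)) (by simpa using h))
  have h2 : ∀ c : Bool, xor (F ![false, c, false]) (xor (F ![true, c, false])
      (xor (F ![false, c, true]) (F ![true, c, true]))) = false := by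
    intro c
    by_contra h
    exact hcon (ALC_two G (hCLP.1 G 2) hnot (fun x y => F ![x, c, y])
      (fun u v hu hv => hcomp u _ v hu (hconst c) hv) (by simpa using h))
  have h3 : ∀ c : Bool, xor (F ![c, false, false]) (xor (F ![c, true, false])
      (xor (F ![c, false, true]) (F ![c, true, true]))) = false := by
    intro c
    by_contra h
    exact hcon (ALC_two G (hCLP.1 G 2) hnot (fun x y => F ![c, x, y])
      (fun u v hu hv => hcomp _ u v (hconst c) hu hv) (by simpa using h))
  apply hσ
  have hform : ∀ x y z : Bool, F ![x, y, z] = xor (F ![false, false, false])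
      (xor (x && xor (F ![false, false, false]) (F ![true, false, false]))
        (xor (y && xor (F ![false, false, false]) (F ![false, true, false]))
          (z && xor (F ![false, false, false]) (F ![false, false, true])))) := by
    have a1 := h1 false
    have a2 := h1 true
    have a3 := h2 false
    have a4 := h2 true
    have a5 := h3 false
    have a6 := h3 true
    intro x y z
    cases x <;> cases y <;> cases z <;>
      (revert a1 a2 a3 a4 a5 a6
       generalize F ![false, false, false] = b0
       generalize F ![true, false, false] = b1
       generalize F ![false, true, false] = b2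
       generalize F ![true, true, false] = b3
       generalize F ![false, false, true] = b4
       generalize F ![true, false, true] = b5
       generalize F ![false, true, true] = b6
       generalize F ![true, true, true] = b7
       revert b0 b1 b2 b3 b4 b5 b6 b7
       decide)
  have hx : F = fun x => xor (F ![false, false, false])
      (xor (x 0 && xor (F ![false, false, false]) (F ![true, false, false]))
        (xor (x 1 && xor (F ![false, false, false]) (F ![false, true, false]))
          (x 2 && xor (F ![false, false, false]) (F ![false, false, true])))) := by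
    funext x
    have e : x = ![x 0, x 1, x 2] := by
      funext i
      fin_cases i <;> rfl
    conv_lhs => rw [e]
    exact hform _ _ _
  have haff : Affine F := by
    rw [hx]
    exact ALC_xor _ _ (ALC_const _) (ALC_xor _ _ (ALC_lin _ _) (ALC_xor _ _ (ALC_lin _ _) (ALC_lin _ _)))
  exact haff

end Pool.Agent.PB
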